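import Mathlib
import Pool.Graph.R_pool_sql_team_seeded_620a6dc7.Results.MP_0e6f11_co.SizeConditionFails

/-!
# Counterexamples to the edge-count rainbow matching question for infinitely many `n`

For every `t` the question fails for `n = 1717986918400 (1 + 2^35 t)` and every `k` with
`0.981 n ≤ k ≤ n`.  The ten row types and ten column types of the library's single example are
enlarged by the factor `m = 1 + 2^35 t`; the number of sets contained in an upper level set is
raised to `kk j + t (cells j) / 50`.  The rounding loss of the weight inequality stays exactly one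
and the parity obstruction survives.  All sets from `kk 80` on are complete, so that a rainbow
matching of the first `k` sets would extend to all `n` sets.
-/

namespace Pool.Agent.Results.MP_0e6f11_co.InfinitelyManyOrders

open Finset
open Pool.Agent.Results.MP_0e6f11_co.SizeConditionFails (nn rho gam V W lv dl ta kk cells ph
  sum_rho sum_gam lv_anti kk_le kk_last kk_cells weight_eq parity_eq dl_nonneg ta_dl total_eq
  total_parity exists_type sum_type)

/-- One fiftieth of the number of cells in an upper level set. -/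
def cc (j : Fin 82) : ℕ := cells (lv j) / 50

lemma cc_cells : ∀ j : Fin 82, cells (lv j) = 50 * cc j := by decide +kernel
lemma cc_le : ∀ j : Fin 82, cc j ≤ nn * 34359738368 := by decide +kernel
lemma cc_last : cc 81 = nn * 34359738368 := by decide +kernel
lemma cc_total : ∑ j, dl j * (cc j : ℤ) = 34359738368 * ((∑ j, dl j * (kk j : ℤ)) + 1) := by
  decide +kernel
lemma cc_parity : (∑ j, ta j * cc j) % 2 = 0 := by decide +kernel
lemma kk_80 : 1000 * kk 80 ≤ 981 * nn := by decide +kernel
lemma cc_80 : 1000 * cc 80 ≤ 981 * (nn * 34359738368) := by decide +kernel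
lemma ph_eq (x y : Fin 10) : ph x y = (if x = 4 then 1 else 0) + (if y = 4 then 1 else 0) := rfl
lemma nn_eq : nn = 50 * 34359738368 := by decide +kernel

lemma mono_80 : ∀ j : Fin 82, (j : ℕ) ≤ 80 → kk j ≤ kk 80 ∧ cc j ≤ cc 80 := by decide +kernel
lemma lv_all : ∀ j : Fin 82, 81 ≤ (j : ℕ) → ∀ x y : Fin 10, lv j ≤ V x + W y := by decide +kernel

/-- The main construction. -/
theorem main (t : ℕ) {n : ℕ} (hn : n = nn * (1 + 34359738368 * t)) :
    ∃ F : Fin n → Finset (Fin n × Fin n),
    (∀ i : Fin n, ((i : ℕ) + 1) * n ≤ (F i).card) ∧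
    (∀ i : Fin n, kk 80 + t * cc 80 ≤ (i : ℕ) → F i = univ) ∧
    ¬ ∃ e : Fin n → Fin n × Fin n, (∀ i, e i ∈ F i) ∧
      ∀ i j, i ≠ j → (e i).1 ≠ (e j).1 ∧ (e i).2 ≠ (e j).2 := by
  set m : ℕ := 1 + 34359738368 * t with hm
  let kq : Fin 82 → ℕ := fun j => kk j + t * cc j
  have hkqn : ∀ j, kq j ≤ n := by
    intro j
    have h1 := kk_le j
    have h2 := Nat.mul_le_mul_left t (cc_le j)
    change kk j + t * cc j ≤ n
    rw [hn, hm]
    nlinarith
  have hkql : kq 81 = n := by
    change kk 81 + t * cc 81 = n
    rw [hn, hm, kk_last, cc_last]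
    ring
  have hkqc : ∀ j, kq j * n ≤ m ^ 2 * cells (lv j) := by
    intro j
    have h1 := kk_cells j
    rw [cc_cells] at h1 ⊢
    have h2 : kq j * nn ≤ m * (50 * cc j) := by
      change (kk j + t * cc j) * nn ≤ m * (50 * cc j)
      rw [hm]
      have h3 : (kk j + t * cc j) * nn = kk j * nn + t * cc j * nn := by ring
      have h4 : (1 + 34359738368 * t) * (50 * cc j) = 50 * cc j + t * cc j * nn := by
        rw [nn_eq]; ring
      rw [h3, h4]
      exact Nat.add_le_add_right h1 _
    calc kq j * n = m * (kq j * nn) := by rw [hn]; ring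
      _ ≤ m * (m * (50 * cc j)) := Nat.mul_le_mul_left _ h2
      _ = m ^ 2 * (50 * cc j) := by ring
  have htot : (∑ x, ((m * rho x : ℕ) : ℤ) * V x) + ∑ y, ((m * gam y : ℕ) : ℤ) * W y
      = (n : ℤ) * (-222) + (∑ j, dl j * (kq j : ℤ)) + 1 := by
    have e1 : ∑ x, ((m * rho x : ℕ) : ℤ) * V x = m * ∑ x, (rho x : ℤ) * V x := by
      rw [mul_sum]; exact sum_congr rfl fun x _ => by push_cast; ring
    have e2 : ∑ x, ((m * gam x : ℕ) : ℤ) * W x = m * ∑ x, (gam x : ℤ) * W x := by
      rw [mul_sum]; exact sum_congr rfl fun x _ => by push_cast; ring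
    have e3 : ∑ j, dl j * (kq j : ℤ) = (∑ j, dl j * (kk j : ℤ)) + t * ∑ j, dl j * (cc j : ℤ) := by
      rw [mul_sum, ← sum_add_distrib]
      refine sum_congr rfl fun j _ => ?_
      change dl j * ((kk j + t * cc j : ℕ) : ℤ) = _
      push_cast; ring
    rw [e1, e2, ← mul_add, total_eq, e3, cc_total, hn, hm]
    push_cast
    ring
  have hpar : (m * rho 4 + m * gam 4) % 2 ≠ (∑ j, ta j * kq j) % 2 := by
    have e3 : ∑ j, ta j * kq j = (∑ j, ta j * kk j) + t * ∑ j, ta j * cc j := by
      rw [mul_sum, ← sum_add_distrib]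
      refine sum_congr rfl fun j _ => ?_
      change ta j * (kk j + t * cc j) = _
      ring
    have h0 := total_parity
    have h1 := cc_parity
    rw [e3]
    have h2 : (t * ∑ j, ta j * cc j) % 2 = 0 := by
      rw [Nat.mul_mod, h1]; simp
    have h3 : (m * rho 4 + m * gam 4) % 2 = (rho 4 + gam 4) % 2 := by
      rw [← mul_add, Nat.mul_mod, hm]
      have : (1 + 34359738368 * t) % 2 = 1 := by omega
      rw [this]; simp
    rw [h3]
    omega
  obtain ⟨tR, hR⟩ := exists_type (fun x => m * rho x) (n := n)
    (by rw [← mul_sum, sum_rho, hn, hm]; ring)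
  obtain ⟨tC, hC⟩ := exists_type (fun x => m * gam x) (n := n)
    (by rw [← mul_sum, sum_gam, hn, hm]; ring)
  let w : Fin n × Fin n → ℤ := fun p => V (tR p.1) + W (tC p.2)
  have hcard : ∀ t : ℤ, (univ.filter (fun p => t ≤ w p)).card = m ^ 2 * cells t := by
    intro t
    rw [Finset.card_filter, Fintype.sum_prod_type]
    have h1 : ∀ a : Fin n, ∑ b : Fin n, (if t ≤ w (a, b) then 1 else 0)
        = ∑ y, (m * gam y) * (if t ≤ V (tR a) + W y then 1 else 0) := by
      intro a
      exact sum_type hC (fun y => if t ≤ V (tR a) + W y then 1 else 0)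
    rw [sum_congr rfl fun a _ => h1 a]
    rw [sum_type hR (fun x => ∑ y, (m * gam y) * (if t ≤ V x + W y then 1 else 0))]
    unfold cells
    rw [mul_sum]
    refine sum_congr rfl fun x _ => ?_
    rw [smul_eq_mul, mul_sum, mul_sum]
    refine sum_congr rfl fun y _ => ?_
    split_ifs
    · simp only [mul_one]
      ring
    · simp
  refine ⟨fun i => univ.filter (fun p => ∀ j, (i : ℕ) + 1 ≤ kq j → lv j ≤ w p), ?_, ?_, ?_⟩
  · intro i
    have hne : (univ.filter (fun j : Fin 82 => (i : ℕ) + 1 ≤ kq j)).Nonempty := by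
      refine ⟨81, ?_⟩
      simp only [mem_filter, mem_univ, true_and]
      rw [hkql]
      exact i.2
    obtain ⟨j0, hj0, hmin⟩ := Finset.exists_min_image _ (fun j : Fin 82 => j) hne
    simp only [mem_filter, mem_univ, true_and] at hj0 hmin
    calc ((i : ℕ) + 1) * n ≤ kq j0 * n := Nat.mul_le_mul_right _ hj0
      _ ≤ m ^ 2 * cells (lv j0) := hkqc j0
      _ = (univ.filter (fun p => lv j0 ≤ w p)).card := (hcard _).symm
      _ ≤ _ := by
        refine card_le_card ?_
        intro p hp
        simp only [mem_filter, mem_univ, true_and] at hp ⊢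
        intro j hj
        exact (lv_anti j0 j (hmin j hj)).trans hp
  · intro i hi
    refine filter_true_of_mem ?_
    intro p _ j hj
    refine lv_all j ?_ _ _
    by_contra hlt
    have h := mono_80 j (by omega)
    have h2 := Nat.mul_le_mul_left t h.2
    have h3 : (i : ℕ) + 1 ≤ kk j + t * cc j := hj
    omega
  · rintro ⟨e, he, hd⟩
    simp only [mem_filter, mem_univ, true_and] at he
    have hb1 : Function.Bijective (fun i => (e i).1) := by
      refine Finite.injective_iff_bijective.mp ?_
      intro i j hij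
      by_contra hne
      exact (hd i j hne).1 hij
    have hb2 : Function.Bijective (fun i => (e i).2) := by
      refine Finite.injective_iff_bijective.mp ?_
      intro i j hij
      by_contra hne
      exact (hd i j hne).2 hij
    -- the number of chosen edges in each upper level set
    let c : Fin 82 → ℕ := fun j => (univ.filter (fun i : Fin n => lv j ≤ w (e i))).card
    have hc : ∀ j, kq j ≤ c j := by
      intro j
      have hle : kq j ≤ n := hkqn j
      have h1 : (univ : Finset (Fin (kq j))).card ≤ c j := by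
        refine Finset.card_le_card_of_injOn (fun a => Fin.castLE hle a) ?_ ?_
        · intro a _
          simp only [coe_filter, mem_univ, true_and, Set.mem_ofPred_eq]
          exact he _ j a.2
        · intro a _ b _ hab
          exact Fin.castLE_injective hle hab
      simpa using h1
    -- total weight
    have hw1 : ∑ i, w (e i) = (∑ x, ((m * rho x : ℕ) : ℤ) * V x)
        + ∑ y, ((m * gam y : ℕ) : ℤ) * W y := by
      have a1 : ∑ i, V (tR (e i).1) = ∑ x, ((m * rho x : ℕ) : ℤ) * V x := by
        rw [Function.Bijective.sum_comp hb1 (fun a => V (tR a)), sum_type hR V]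
        simp
      have a2 : ∑ i, W (tC (e i).2) = ∑ y, ((m * gam y : ℕ) : ℤ) * W y := by
        rw [Function.Bijective.sum_comp hb2 (fun a => W (tC a)), sum_type hC W]
        simp
      rw [← a1, ← a2, ← sum_add_distrib]
    have hw2 : ∑ i, w (e i) = (n : ℤ) * ((-222)) + ∑ j, dl j * (c j : ℤ) := by
      have a1 : ∀ i, w (e i) = (-222) + ∑ j : Fin 82, if lv j ≤ w (e i) then dl j else 0 :=
        fun i => weight_eq _ _
      have a2 : ∑ _i : Fin n, (-222 : ℤ) = (n : ℤ) * (-222) := by
        rw [sum_const, card_univ, Fintype.card_fin, nsmul_eq_mul]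
      have a3 : ∑ j : Fin 82, ∑ i : Fin n, (if lv j ≤ w (e i) then dl j else 0)
          = ∑ j, dl j * (c j : ℤ) := by
        refine sum_congr rfl fun j _ => ?_
        rw [← Finset.sum_filter, sum_const, nsmul_eq_mul, mul_comm]
      rw [sum_congr rfl fun i _ => a1 i, sum_add_distrib, sum_comm, a2, a3]
    have hw3 : ∑ j, dl j * ((c j : ℤ) - kq j) = 1 := by
      have := htot
      rw [← hw1, hw2] at this
      simp only [mul_sub, sum_sub_distrib]
      linarith
    have hnn : ∀ j, 0 ≤ dl j * ((c j : ℤ) - kq j) := by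
      intro j
      refine mul_nonneg (dl_nonneg j) ?_
      have := hc j
      have : (kq j : ℤ) ≤ c j := by exact_mod_cast this
      linarith
    have hodd : ∀ j, ta j * c j = ta j * kq j := by
      intro j
      rcases ta_dl j with h0 | h2
      · rw [h0]; simp
      · have h3 : dl j * ((c j : ℤ) - kq j) ≤ 1 := by
          rw [← hw3]
          exact Finset.single_le_sum (fun j _ => hnn j) (mem_univ j)
        have h4 : (kq j : ℤ) ≤ c j := by exact_mod_cast hc j
        have h5 : (c j : ℤ) = kq j := by
          by_contra hne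
          have h6 : 1 ≤ (c j : ℤ) - kq j := by omega
          nlinarith
        have h7 : c j = kq j := by exact_mod_cast h5
        rw [h7]
    -- parity
    have b1 : ∑ i, (if tR (e i).1 = 4 then 1 else 0) = m * rho 4 := by
      rw [← hR 4, Finset.card_filter]
      exact Function.Bijective.sum_comp hb1 (fun a => if tR a = 4 then 1 else 0)
    have b2 : ∑ i, (if tC (e i).2 = 4 then 1 else 0) = m * gam 4 := by
      rw [← hC 4, Finset.card_filter]
      exact Function.Bijective.sum_comp hb2 (fun a => if tC a = 4 then 1 else 0)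
    have hp1 : ∑ i, ph (tR (e i).1) (tC (e i).2) = m * rho 4 + m * gam 4 := by
      rw [← b1, ← b2, ← sum_add_distrib]
      rfl
    have hp2 : (∑ i, ph (tR (e i).1) (tC (e i).2)) % 2 = (∑ j, ta j * c j) % 2 := by
      rw [Finset.sum_nat_mod]
      rw [sum_congr rfl fun i _ => parity_eq (tR (e i).1) (tC (e i).2)]
      have a3 : ∑ j : Fin 82, ∑ i : Fin n, (if lv j ≤ V (tR (e i).1) + W (tC (e i).2)
          then ta j else 0) = ∑ j, ta j * c j := by
        refine sum_congr rfl fun j _ => ?_
        rw [← Finset.sum_filter, sum_const, smul_eq_mul, mul_comm]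
      rw [← Finset.sum_nat_mod, sum_comm, a3]
    rw [hp1, sum_congr rfl fun j _ => hodd j] at hp2
    exact hpar hp2

/-- For every `t`, with `n = 1717986918400 (1 + 2^35 t)`, and for every `k` with
`0.981 n ≤ k ≤ n`, there are subgraphs `F_1, …, F_k` of `K_(n,n)` with `|F_i| ≥ i n` for all `i`
which have no rainbow matching. -/
theorem result (t n k : ℕ) (hn : n = 1717986918400 * (1 + 2 ^ 35 * t))
    (hk : 981 * n ≤ 1000 * k) (hkn : k ≤ n) :
    ∃ F : Fin k → Finset (Fin n × Fin n),
      (∀ i : Fin k, ((i : ℕ) + 1) * n ≤ (F i).card) ∧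
      ¬ ∃ e : Fin k → Fin n × Fin n, (∀ i, e i ∈ F i) ∧
        ∀ i j, i ≠ j → (e i).1 ≠ (e j).1 ∧ (e i).2 ≠ (e j).2 := by
  have hn' : n = nn * (1 + 34359738368 * t) := by rw [hn]; norm_num [nn]
  obtain ⟨F, hF, hU, hno⟩ := main t hn'
  have hk80 : kk 80 + t * cc 80 ≤ k := by
    have h1 := kk_80
    have h2 := Nat.mul_le_mul_left t cc_80
    rw [hn'] at hk
    nlinarith
  refine ⟨fun i => F (Fin.castLE hkn i), fun i => hF (Fin.castLE hkn i), ?_⟩
  rintro ⟨e, he, hd⟩
  apply hno
  -- extend the rainbow matching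
  have key : ∀ f : Fin k → Fin n, Function.Injective f →
      ∃ g : Fin n ≃ Fin n, ∀ i, g (Fin.castLE hkn i) = f i := by
    intro f hf
    have hcast := Fin.castLE_injective hkn
    let s : Set (Fin n) := Set.range (Fin.castLE hkn)
    let u : Fin k ≃ {x // x ∈ Set.range (Fin.castLE hkn)} := Equiv.ofInjective _ hcast
    let v : Fin k ≃ {x // x ∈ Set.range f} := Equiv.ofInjective _ hf
    classical
    let g : Fin n ≃ Fin n := (u.symm.trans v).extendSubtype
    refine ⟨g, fun i => ?_⟩
    have h := Equiv.extendSubtype_apply_of_mem (u.symm.trans v) (Fin.castLE hkn i)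
      (Set.mem_range_self i)
    have h2 : (⟨Fin.castLE hkn i, Set.mem_range_self i⟩ : {x // x ∈ Set.range (Fin.castLE hkn)})
        = u i := rfl
    rw [h2] at h
    change (u.symm.trans v).extendSubtype (Fin.castLE hkn i) = f i
    rw [h]
    simp [v]
  obtain ⟨g1, hg1⟩ := key (fun i => (e i).1) (fun i j hij => by
    by_contra hne
    exact (hd i j hne).1 hij)
  obtain ⟨g2, hg2⟩ := key (fun i => (e i).2) (fun i j hij => by
    by_contra hne
    exact (hd i j hne).2 hij)
  refine ⟨fun i => (g1 i, g2 i), ?_, ?_⟩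
  · intro i
    by_cases hik : (i : ℕ) < k
    · have h1 : i = Fin.castLE hkn ⟨i, hik⟩ := by ext; rfl
      rw [h1]
      change (g1 (Fin.castLE hkn ⟨i, hik⟩), g2 (Fin.castLE hkn ⟨i, hik⟩)) ∈ _
      rw [hg1, hg2]
      exact he ⟨i, hik⟩
    · rw [hU i (hk80.trans (not_lt.mp hik))]
      exact mem_univ _
  · intro i j hij
    exact ⟨fun h => hij (g1.injective h), fun h => hij (g2.injective h)⟩

end Pool.Agent.Results.MP_0e6f11_co.InfinitelyManyOrders
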